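import Pool.Agent.Y544.FD.Stm

set_option autoImplicit false

namespace Pool.Agent.Y217.FD

open Polynomial Pool.Agent.Y544.FD

variable {p : ℕ} [Fact p.Prime]

/-- the sequence of traces -/
noncomputable def W (z : (ZMod p)[X]) (n : ℕ) : (ZMod p)[X] := (dickson 1 (1 : ZMod p) n).comp z

theorem W_zero (z : (ZMod p)[X]) : W z 0 = 2 := by
  unfold W
  rw [dickson_zero]
  norm_num

theorem W_one (z : (ZMod p)[X]) : W z 1 = z := by
  unfold W
  rw [dickson_one, X_comp]

theorem W_add_two (z : (ZMod p)[X]) (n : ℕ) : W z (n + 2) = z * W z (n + 1) - W z n := by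
  unfold W
  rw [dickson_add_two, sub_comp, mul_comp, mul_comp, X_comp, C_1, one_comp, one_mul]

/-- two consecutive terms of the sequence, up to the order and the sign -/
def Pr (z u v : (ZMod p)[X]) : Prop := ∃ n : ℕ, (u = W z n ∧ v = W z (n + 1)) ∨
  (u = -W z n ∧ v = -W z (n + 1)) ∨ (u = W z (n + 1) ∧ v = W z n) ∨
  (u = -W z (n + 1) ∧ v = -W z n)

theorem Pr.symm {z u v : (ZMod p)[X]} (h : Pr z u v) : Pr z v u := by
  obtain ⟨n, h | h | h | h⟩ := h
  · exact ⟨n, Or.inr (Or.inr (Or.inl ⟨h.2, h.1⟩))⟩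
  · exact ⟨n, Or.inr (Or.inr (Or.inr ⟨h.2, h.1⟩))⟩
  · exact ⟨n, Or.inl ⟨h.2, h.1⟩⟩
  · exact ⟨n, Or.inr (Or.inl ⟨h.2, h.1⟩)⟩

theorem Pr.fwd {z u v : (ZMod p)[X]} (h : Pr z u v) : Pr z v (z * v - u) := by
  obtain ⟨n, ⟨hu, hv⟩ | ⟨hu, hv⟩ | ⟨hu, hv⟩ | ⟨hu, hv⟩⟩ := h
  · refine ⟨n + 1, Or.inl ⟨hv, ?_⟩⟩
    rw [hu, hv, W_add_two]
  · refine ⟨n + 1, Or.inr (Or.inl ⟨hv, ?_⟩)⟩
    rw [hu, hv, W_add_two]; ring
  · cases n with
    | zero =>
      refine ⟨0, Or.inl ⟨hv, ?_⟩⟩
      rw [hu, hv, zero_add, W_zero, W_one]; ring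
    | succ n =>
      refine ⟨n, Or.inr (Or.inr (Or.inl ⟨hv, ?_⟩))⟩
      rw [hu, hv, W_add_two]; ring
  · cases n with
    | zero =>
      refine ⟨0, Or.inr (Or.inl ⟨hv, ?_⟩)⟩
      rw [hu, hv, zero_add, W_zero, W_one]; ring
    | succ n =>
      refine ⟨n, Or.inr (Or.inr (Or.inr ⟨hv, ?_⟩))⟩
      rw [hu, hv, W_add_two]; ring

theorem deg_aux {z x y s : (ZMod p)[X]} (hz : 0 < z.natDegree) (hx : x ≠ 0) (hy : y ≠ 0)
    (hs : s ≠ 0) (hsd : s = x + z * y) (h : x * s = 1 - y ^ 2)
    (hab : y.natDegree ≤ x.natDegree) : s.natDegree < x.natDegree := by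
  have hz0 : z ≠ 0 := by
    rintro rfl
    simp at hz
  have h1 : x.natDegree + s.natDegree ≤ 2 * y.natDegree := by
    rw [← natDegree_mul hx hs, h]
    refine (natDegree_sub_le _ _).trans (max_le (by simp) ?_)
    rw [natDegree_pow]
  have h2 : z.natDegree + y.natDegree ≤ max s.natDegree x.natDegree := by
    rw [← natDegree_mul hz0 hy]
    have e : z * y = s - x := by rw [hsd]; ring
    rw [e]
    exact natDegree_sub_le _ _
  rcases le_total s.natDegree x.natDegree with h3 | h3
  · rw [max_eq_right h3] at h2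
    omega
  · rw [max_eq_left h3] at h2
    omega

theorem main (z : (ZMod p)[X]) (hz : 0 < z.natDegree) : ∀ (m : ℕ) (x y : (ZMod p)[X]),
    x.natDegree + y.natDegree < m → x ^ 2 + z * x * y + y ^ 2 = 1 →
    Pr z (2 * x + z * y) (z * (x + z * y) - 2 * y) := by
  have base : ∀ x : (ZMod p)[X], x ^ 2 = 1 →
      Pr z (2 * x + z * 0) (z * (x + z * 0) - 2 * 0) := by
    intro x hx
    rw [sq] at hx
    rcases mul_self_eq_one_iff.mp hx with rfl | rfl
    · refine ⟨0, Or.inl ⟨?_, ?_⟩⟩
      · rw [W_zero]; ring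
      · rw [zero_add, W_one]; ring
    · refine ⟨0, Or.inr (Or.inl ⟨?_, ?_⟩)⟩
      · rw [W_zero]; ring
      · rw [zero_add, W_one]; ring
  intro m
  induction m with
  | zero => intro x y h; omega
  | succ m ih =>
    intro x y hm h
    by_cases hy : y = 0
    · subst hy
      exact base x (by linear_combination h)
    by_cases hx : x = 0
    · subst hx
      have hy2 : (y * y : (ZMod p)[X]) = 1 := by linear_combination h
      have w2 : W z (1 + 1) = z * z - 2 := by
        rw [show 1 + 1 = 0 + 2 from rfl, W_add_two, W_zero, zero_add, W_one]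
      rcases mul_self_eq_one_iff.mp hy2 with rfl | rfl
      · refine ⟨1, Or.inl ⟨?_, ?_⟩⟩
        · rw [W_one]; ring
        · rw [w2]; ring
      · refine ⟨1, Or.inr (Or.inl ⟨?_, ?_⟩)⟩
        · rw [W_one]; ring
        · rw [w2]; ring
    rcases le_total y.natDegree x.natDegree with hab | hab
    · -- multiply by `α`
      have key : Pr z (2 * (-y) + z * (x + z * y))
          (z * (-y + z * (x + z * y)) - 2 * (x + z * y)) := by
        by_cases hs : x + z * y = 0
        · rw [hs]
          apply base (-y)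
          linear_combination h - x * hs
        · apply ih
          · have h1 := deg_aux hz hx hy hs rfl (by linear_combination h) hab
            rw [natDegree_neg]
            omega
          · linear_combination h
      have k2 := key.symm.fwd.symm
      have e1 : z * (2 * (-y) + z * (x + z * y)) - (z * (-y + z * (x + z * y)) - 2 * (x + z * y)) =
          2 * x + z * y := by ring
      have e2 : 2 * (-y) + z * (x + z * y) = z * (x + z * y) - 2 * y := by ring
      rw [e1, e2] at k2
      exact k2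
    · -- multiply by `α⁻¹`
      have key : Pr z (2 * (y + z * x) + z * (-x))
          (z * ((y + z * x) + z * (-x)) - 2 * (-x)) := by
        by_cases hs : y + z * x = 0
        · have hx2 : ((-x) * (-x) : (ZMod p)[X]) = 1 := by linear_combination h - y * hs
          have w2 : W z (1 + 1) = z * z - 2 := by
            rw [show 1 + 1 = 0 + 2 from rfl, W_add_two, W_zero, zero_add, W_one]
          rw [hs]
          rcases mul_self_eq_one_iff.mp hx2 with e | e
          · rw [e]
            refine ⟨1, Or.inl ⟨?_, ?_⟩⟩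
            · rw [W_one]; ring
            · rw [w2]; ring
          · rw [e]
            refine ⟨1, Or.inr (Or.inl ⟨?_, ?_⟩)⟩
            · rw [W_one]; ring
            · rw [w2]; ring
        · apply ih
          · have h1 := deg_aux hz hy hx hs rfl (by linear_combination h) hab
            rw [natDegree_neg]
            omega
          · linear_combination h
      have k2 := key.fwd
      have e1 : z * ((y + z * x) + z * (-x)) - 2 * (-x) = 2 * x + z * y := by ring
      have e2 : z * (2 * x + z * y) - (2 * (y + z * x) + z * (-x)) =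
          z * (x + z * y) - 2 * y := by ring
      rw [e1, e2] at k2
      exact k2

theorem pell : S_pell := by
  intro p _ z x y hz h
  obtain ⟨n, h1 | h1 | h1 | h1⟩ := main z hz _ x y (Nat.lt_succ_self _) h
  · exact ⟨n, Or.inl h1.1⟩
  · exact ⟨n, Or.inr h1.1⟩
  · exact ⟨n + 1, Or.inl h1.1⟩
  · exact ⟨n + 1, Or.inr h1.1⟩

end Pool.Agent.Y217.FD
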